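import Pool.Agent.MP_3409fc_co.Main

set_option autoImplicit false

namespace Pool.Agent.Results.MP_3409fc_co.FewSolutions

open Finset NoThree

/-- the lattice point as a point of the real plane -/
def toPlane (p : ℤ × ℤ) : ℝ × ℝ := ((p.1 : ℝ), (p.2 : ℝ))

/-- `2 n` points of the `n × n` grid, no three distinct ones on a line -/
def IsSolution (n : ℕ) (S : Finset (ℤ × ℤ)) : Prop :=
  (∀ p ∈ S, 1 ≤ p.1 ∧ p.1 ≤ n ∧ 1 ≤ p.2 ∧ p.2 ≤ n) ∧ S.card = 2 * n ∧
    ∀ p ∈ S, ∀ q ∈ S, ∀ r ∈ S, p ≠ q → p ≠ r → q ≠ r →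
      ¬Collinear ℝ ({toPlane p, toPlane q, toPlane r} : Set (ℝ × ℝ))

/-- invariant under the reflections in the two midlines -/
def RectSym (n : ℕ) (S : Finset (ℤ × ℤ)) : Prop :=
  S.image (fun p => ((n : ℤ) + 1 - p.1, p.2)) = S ∧ S.image (fun p => (p.1, (n : ℤ) + 1 - p.2)) = S

lemma collinear_of_det {p q r : ℤ × ℤ} (hpq : p ≠ q) (h : det p q r = 0) :
    Collinear ℝ ({toPlane p, toPlane q, toPlane r} : Set (ℝ × ℝ)) := by
  rw [collinear_iff_of_mem (p₀ := toPlane p) (by simp)]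
  refine ⟨toPlane q - toPlane p, fun x hx => ?_⟩
  have h' : ((q.1 : ℝ) - p.1) * (r.2 - p.2) - (q.2 - p.2) * (r.1 - p.1) = 0 := by
    unfold det at h
    exact_mod_cast h
  rcases hx with rfl | rfl | rfl
  · exact ⟨0, by simp⟩
  · exact ⟨1, by simp⟩
  · by_cases h1 : q.1 = p.1
    · have h2 : (q.2 : ℝ) - p.2 ≠ 0 := by
        rw [sub_ne_zero]
        exact_mod_cast fun e : q.2 = p.2 => hpq (Prod.ext h1.symm e.symm)
      refine ⟨(r.2 - p.2) / (q.2 - p.2), Prod.ext ?_ ?_⟩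
      · simp only [toPlane, vadd_eq_add, Prod.fst_add, Prod.smul_fst, Prod.fst_sub, smul_eq_mul]
        field_simp
        linarith
      · simp only [toPlane, vadd_eq_add, Prod.snd_add, Prod.smul_snd, Prod.snd_sub, smul_eq_mul]
        field_simp
        ring
    · have h2 : (q.1 : ℝ) - p.1 ≠ 0 := by
        rw [sub_ne_zero]
        exact_mod_cast h1
      refine ⟨(r.1 - p.1) / (q.1 - p.1), Prod.ext ?_ ?_⟩
      · simp only [toPlane, vadd_eq_add, Prod.fst_add, Prod.smul_fst, Prod.fst_sub, smul_eq_mul]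
        field_simp
        ring
      · simp only [toPlane, vadd_eq_add, Prod.snd_add, Prod.smul_snd, Prod.snd_sub, smul_eq_mul]
        field_simp
        linarith

variable {n : ℕ} {S : Finset (ℤ × ℤ)}

lemma IsSolution.det_ne (h : IsSolution n S) {p q r : ℤ × ℤ} (hp : p ∈ S) (hq : q ∈ S)
    (hr : r ∈ S) (h1 : p ≠ q) (h2 : p ≠ r) (h3 : q ≠ r) : det p q r ≠ 0 := fun e =>
  h.2.2 p hp q hq r hr h1 h2 h3 (collinear_of_det h1 e)

lemma RectSym.h (h : RectSym n S) {x y : ℤ} (hp : (x, y) ∈ S) : ((n : ℤ) + 1 - x, y) ∈ S := by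
  rw [← h.1]
  exact mem_image.2 ⟨_, hp, rfl⟩

lemma RectSym.v (h : RectSym n S) {x y : ℤ} (hp : (x, y) ∈ S) : (x, (n : ℤ) + 1 - y) ∈ S := by
  rw [← h.2]
  exact mem_image.2 ⟨_, hp, rfl⟩

lemma card_lt_of_fibre (f : ℤ × ℤ → ℤ) (hf : ∀ p ∈ S, f p ∈ Icc (1 : ℤ) n)
    (h2 : ∀ y, #(S.filter fun p => f p = y) ≤ 2) {y : ℤ} (hy : y ∈ Icc (1 : ℤ) n)
    (h1 : #(S.filter fun p => f p = y) < 2) : #S < 2 * n := by
  rw [card_eq_sum_card_fiberwise hf]
  refine (sum_lt_sum (g := fun _ => 2) (fun y _ => h2 y) ⟨y, hy, h1⟩).trans_le ?_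
  simp [mul_comm]

lemma even_of_sol (h : IsSolution n S) (hs : RectSym n S) : Even n := by
  by_contra hn
  obtain ⟨m, rfl⟩ := Nat.not_even_iff_odd.1 hn
  have row : ∀ y, #(S.filter fun p => p.2 = y) ≤ 2 := fun y => by
    by_contra hc
    obtain ⟨a, b, c, ha, hb, hc, ab, ac, bc⟩ := two_lt_card_iff.1 (not_le.1 hc)
    refine h.det_ne (mem_filter.1 ha).1 (mem_filter.1 hb).1 (mem_filter.1 hc).1 ab ac bc ?_
    unfold det
    rw [(mem_filter.1 ha).2, (mem_filter.1 hb).2, (mem_filter.1 hc).2]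
    ring
  have col : ∀ x, #(S.filter fun p => p.1 = x) ≤ 2 := fun x => by
    by_contra hc
    obtain ⟨a, b, c, ha, hb, hc, ab, ac, bc⟩ := two_lt_card_iff.1 (not_le.1 hc)
    refine h.det_ne (mem_filter.1 ha).1 (mem_filter.1 hb).1 (mem_filter.1 hc).1 ab ac bc ?_
    unfold det
    rw [(mem_filter.1 ha).2, (mem_filter.1 hb).2, (mem_filter.1 hc).2]
    ring
  have b1 : ∀ p ∈ S, p.1 ∈ Icc (1 : ℤ) (2 * m + 1 : ℕ) := fun p hp =>
    mem_Icc.2 ⟨(h.1 p hp).1, (h.1 p hp).2.1⟩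
  have b2 : ∀ p ∈ S, p.2 ∈ Icc (1 : ℤ) (2 * m + 1 : ℕ) := fun p hp =>
    mem_Icc.2 ⟨(h.1 p hp).2.2.1, (h.1 p hp).2.2.2⟩
  rcases (S.filter fun p => p.1 = (m : ℤ) + 1).eq_empty_or_nonempty with e | ⟨⟨x, y⟩, hp⟩
  · exact (card_lt_of_fibre Prod.fst b1 col (y := (m : ℤ) + 1)
      (by rw [mem_Icc]; push_cast; omega) (by rw [e]; simp)).ne h.2.1
  · obtain ⟨hp, hx⟩ := mem_filter.1 hp
    refine (card_lt_of_fibre Prod.snd b2 row (b2 _ hp) ?_).ne h.2.1
    refine Nat.lt_succ_of_le (card_le_one.2 ?_)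
    have key : ∀ a ∈ S.filter fun p => p.2 = y, a = (x, y) := fun ⟨x', y'⟩ ha => by
      obtain ⟨hb, hy⟩ := mem_filter.1 ha
      dsimp only at hx hy
      subst hy
      by_contra hc
      have hx' : x' ≠ x := fun e => hc (by rw [e])
      refine h.det_ne hp hb (hs.h hb) (Ne.symm hc) ?_ ?_ (by simp [det])
      · rw [Ne, Prod.mk.injEq]; push_cast; omega
      · rw [Ne, Prod.mk.injEq]; push_cast; omega
    exact fun a ha b hb => (key a ha).trans (key b hb).symm

/-- the part in the lower left quadrant -/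
def quad (m : ℕ) (S : Finset (ℤ × ℤ)) : Finset (ℤ × ℤ) := S.filter fun p => p.1 ≤ m ∧ p.2 ≤ m

lemma mem_iff_quad {m : ℕ} (hs : RectSym (2 * m) S) (x y : ℤ) :
    (x, y) ∈ S ↔ (min x (2 * m + 1 - x), min y (2 * m + 1 - y)) ∈ quad m S := by
  have hh : ∀ x y : ℤ, (x, y) ∈ S ↔ (min x (2 * m + 1 - x), y) ∈ S := fun x y => by
    rcases le_total x (2 * m + 1 - x) with h | h
    · rw [min_eq_left h]
    · rw [min_eq_right h]
      exact ⟨fun a => by simpa using hs.h a, fun a => by simpa using hs.h a⟩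
  have hv : ∀ x y : ℤ, (x, y) ∈ S ↔ (x, min y (2 * m + 1 - y)) ∈ S := fun x y => by
    rcases le_total y (2 * m + 1 - y) with h | h
    · rw [min_eq_left h]
    · rw [min_eq_right h]
      exact ⟨fun a => by simpa using hs.v a, fun a => by simpa using hs.v a⟩
  rw [hh, hv, quad, mem_filter]
  exact (and_iff_left ⟨by dsimp only; omega, by dsimp only; omega⟩).symm

lemma goodSet_quad {m : ℕ} (h : IsSolution (2 * m) S) (hs : RectSym (2 * m) S) :
    GoodSet m (quad m S) := by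
  have hb : quad m S ⊆ NoThree.box m := fun p hp => by
    obtain ⟨a, b⟩ := mem_filter.1 hp
    exact mem_box.2 ⟨⟨(h.1 p a).1, b.1⟩, (h.1 p a).2.2.1, b.2⟩
  refine ⟨hb, le_antisymm ?_ ?_, fun p hp q hq r hr => h.det_ne (mem_filter.1 hp).1
    (mem_filter.1 hq).1 (mem_filter.1 hr).1⟩
  · have : #(quad m S) ≤ #(Icc (1 : ℤ) m) := by
      refine card_le_card_of_injOn Prod.snd (fun p hp => mem_coe.2 (mem_Icc.2
        (mem_box.1 (hb hp)).2)) fun ⟨x, y⟩ ha ⟨x', y'⟩ hb e => ?_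
      dsimp only at e
      subst e
      by_contra hc
      obtain ⟨a1, a2, -⟩ := mem_filter.1 (mem_coe.1 ha)
      obtain ⟨b1, b2, -⟩ := mem_filter.1 (mem_coe.1 hb)
      dsimp only at a2 b2
      refine h.det_ne a1 b1 (hs.h b1) hc ?_ ?_ (by simp [det])
      · rw [Ne, Prod.mk.injEq]; push_cast; omega
      · rw [Ne, Prod.mk.injEq]; push_cast; omega
    simpa using this
  · have : #S ≤ 4 * #(quad m S) := by
      refine card_le_mul_card_image_of_maps_to
        (f := fun p : ℤ × ℤ => (min p.1 (2 * m + 1 - p.1), min p.2 (2 * m + 1 - p.2)))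
        (fun p hp => (mem_iff_quad hs p.1 p.2).1 hp) 4 fun b _ => ?_
      refine le_trans (card_le_card (t := {b.1, 2 * m + 1 - b.1} ×ˢ {b.2, 2 * m + 1 - b.2})
        fun p hp => ?_) ?_
      · have := (mem_filter.1 hp).2
        rw [Prod.ext_iff] at this
        dsimp only at this
        simp only [mem_product, mem_insert, mem_singleton]
        omega
      · rw [card_product]
        exact Nat.mul_le_mul card_le_two card_le_two
    rw [h.2.1] at this
    omega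

/-- The number of solutions with the symmetry of the rectangle is at most `n ^ ((1/2 - c) n)`. -/
theorem result : ∃ c : ℝ, 0 < c ∧ ∃ N : ℕ, ∀ n : ℕ, N ≤ n →
    {S : Finset (ℤ × ℤ) | IsSolution n S ∧ RectSym n S}.Finite ∧
      ({S : Finset (ℤ × ℤ) | IsSolution n S ∧ RectSym n S}.ncard : ℝ) ≤
        (n : ℝ) ^ ((1 / 2 - c) * n) := by
  classical
  obtain ⟨N, hN⟩ := Filter.eventually_atTop.1 ((Real.tendsto_log_atTop.comp
    tendsto_natCast_atTop_atTop).eventually_ge_atTop 200000000)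
  refine ⟨1 / 100000000, by norm_num, 2 * N, fun n hn => ?_⟩
  have hfin : {S : Finset (ℤ × ℤ) | IsSolution n S ∧ RectSym n S}.Finite :=
    (NoThree.box n).powerset.finite_toSet.subset fun S hS => mem_coe.2 (mem_powerset.2 fun p hp =>
      have := hS.1.1 p hp
      mem_box.2 ⟨⟨this.1, this.2.1⟩, this.2.2⟩)
  refine ⟨hfin, ?_⟩
  rcases Set.eq_empty_or_nonempty {S : Finset (ℤ × ℤ) | IsSolution n S ∧ RectSym n S} with
    e | ⟨S₀, h₀⟩
  · rw [e, Set.ncard_empty, Nat.cast_zero]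
    positivity
  obtain ⟨m, rfl⟩ := even_iff_exists_two_mul.1 (even_of_sol h₀.1 h₀.2)
  have hL : (200000000 : ℝ) ≤ Real.log m := hN m (by omega)
  have hm : (0 : ℝ) < m := by
    by_contra h
    rw [le_antisymm (not_lt.1 h) (Nat.cast_nonneg m), Real.log_zero] at hL
    linarith
  have h1 := sets (m := m) (by linarith) (F := hfin.toFinset.image (quad m)) fun T hT => by
    obtain ⟨S, hS, rfl⟩ := mem_image.1 hT
    rw [Set.Finite.mem_toFinset] at hS
    exact goodSet_quad hS.1 hS.2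
  rw [card_image_of_injOn fun S hS S' hS' e => by
    rw [mem_coe, Set.Finite.mem_toFinset] at hS hS'
    ext ⟨x, y⟩
    rw [mem_iff_quad hS.2, mem_iff_quad hS'.2, e]] at h1
  rw [Set.ncard_eq_toFinset_card _ hfin]
  refine h1.trans ?_
  rw [Real.rpow_def_of_pos (by push_cast; linarith)]
  refine Real.exp_le_exp.2 ?_
  have h2 : Real.log m ≤ Real.log ((2 * m : ℕ) : ℝ) :=
    Real.log_le_log hm (by push_cast; linarith)
  refine le_trans ?_ (mul_le_mul_of_nonneg_right h2 (by positivity))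
  push_cast
  nlinarith [mul_le_mul_of_nonneg_left hL hm.le]

end Pool.Agent.Results.MP_3409fc_co.FewSolutions
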